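import Pool.Agent.H12.B71890.Defs

open MeasureTheory Set Filter Topology
open scoped unitInterval

namespace Pool.Agent.H12.B71890

/-- Interval integrals as integrals over the probability space `I`. -/
theorem vs_conv (G : ℝ → ℝ) (a b : I) (hab : a ≤ b) :
    ∫ x in Icc a b, G (x : ℝ) = ∫ x in (a : ℝ)..b, G x := by
  have hab' : (a : ℝ) ≤ b := hab
  rw [intervalIntegral.integral_of_le hab', ← integral_Icc_eq_integral_Ioc]
  have h1 := unitInterval.measurableEmbedding_coe.setIntegral_map
    (μ := (volume : Measure I)) G (Icc (a : ℝ) b)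
  rw [unitInterval.measurePreserving_coe.map_eq, Measure.restrict_restrict measurableSet_Icc] at h1
  have h2 : Icc (a : ℝ) b ∩ I = Icc (a : ℝ) b := by
    apply inter_eq_left.2
    exact Icc_subset_Icc a.2.1 b.2.2
  have h3 : ((↑) : I → ℝ) ⁻¹' (Icc (a : ℝ) b) = Icc a b := by
    ext x; simp
  rw [h2, h3] at h1
  exact h1.symm

theorem vs_Iic (y : I) : Iic y = Icc (0 : I) y := by
  ext x; simp

theorem vs_Ici (y : I) : Ici y = Icc y (1 : I) := by
  ext x; simp
  intro _
  exact unitInterval.le_one x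

theorem vs_apply (φ : C(I, I)) (f : C(I, ℝ)) (x : I) :
    intSubFun φ f x = ∫ t in Iic (φ x), f t := by
  rw [vs_Iic]
  have h := vs_conv (Set.IccExtend (zero_le_one (α := ℝ)) f) 0 (φ x) (unitInterval.nonneg _)
  simp only [Set.IccExtend_val] at h
  rw [h]
  rfl

theorem vs_integrable (f : C(I, ℝ)) : Integrable f := by
  exact f.continuous.integrable_of_hasCompactSupport (HasCompactSupport.of_compactSpace _)

theorem vs_intSub_apply (φ : C(I, I)) (f : C(I, ℝ)) (x : I) :
    intSub φ f x = ∫ t in Iic (φ x), f t := vs_apply φ f x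

theorem vs_limit {A : Type*} [NormedRing A] (h1 : ‖(1 : A)‖ ≤ 1) (T : A) :
    ∃ r : ℝ, 0 ≤ r ∧ Tendsto (fun n : ℕ => ‖T ^ n‖ ^ (1 / (n : ℝ))) atTop (𝓝 r) := by
  let μ : RingSeminorm (Polynomial ℤ) :=
    { toFun := fun p => ‖Polynomial.aeval T p‖
      map_zero' := by simp
      add_le' := fun p q => by rw [map_add]; exact norm_add_le _ _
      neg' := fun p => by rw [map_neg, norm_neg]
      mul_le' := fun p q => by rw [map_mul]; exact norm_mul_le _ _ }
  have h1 : μ 1 ≤ 1 := by
    change ‖Polynomial.aeval T (1 : Polynomial ℤ)‖ ≤ 1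
    rw [map_one]
    exact h1
  refine ⟨smoothingFun μ Polynomial.X, smoothingFun_nonneg μ h1 _, ?_⟩
  have h2 := tendsto_smoothingFun_of_map_one_le_one μ h1 Polynomial.X
  refine h2.congr fun n => ?_
  change ‖Polynomial.aeval T (Polynomial.X ^ n : Polynomial ℤ)‖ ^ (1 / (n : ℝ)) = _
  rw [map_pow, Polynomial.aeval_X]

theorem vs_exists (T : C(I, ℝ) →L[ℝ] C(I, ℝ)) : ∃ r, 0 ≤ r ∧ HasRadius T r :=
  vs_limit (A := C(I, ℝ) →L[ℝ] C(I, ℝ)) ContinuousLinearMap.norm_id_le T

theorem vs_radius_le {T : C(I, ℝ) →L[ℝ] C(I, ℝ)} {r : ℝ} (h : HasRadius T r)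
    {K s : ℝ} (hK : 0 < K) (hs : 0 ≤ s) (hT : ∀ n : ℕ, ‖T ^ n‖ ≤ K * s ^ n) : r ≤ s := by
  have h1 : Tendsto (fun n : ℕ => K ^ (1 / (n : ℝ)) * s) atTop (𝓝 (K ^ (0 : ℝ) * s)) := by
    refine Tendsto.mul_const _ ?_
    exact (tendsto_const_nhds (x := K)).rpow tendsto_one_div_atTop_nhds_zero_nat (Or.inl hK.ne')
  rw [Real.rpow_zero, one_mul] at h1
  refine le_of_tendsto_of_tendsto h h1 ?_
  filter_upwards [eventually_ge_atTop 1] with n hn
  have hn0 : (n : ℝ) ≠ 0 := by positivity
  calc ‖T ^ n‖ ^ (1 / (n : ℝ)) ≤ (K * s ^ n) ^ (1 / (n : ℝ)) :=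
        Real.rpow_le_rpow (ContinuousLinearMap.opNorm_nonneg _) (hT n) (by positivity)
    _ = K ^ (1 / (n : ℝ)) * s := by
        rw [Real.mul_rpow hK.le (by positivity), ← Real.rpow_natCast, ← Real.rpow_mul hs,
          mul_one_div_cancel hn0, Real.rpow_one]

theorem vs_le_radius {T : C(I, ℝ) →L[ℝ] C(I, ℝ)} {r : ℝ} (h : HasRadius T r)
    {K s : ℝ} (hK : 0 < K) (hs : 0 ≤ s) (hT : ∀ n : ℕ, K * s ^ n ≤ ‖T ^ n‖) : s ≤ r := by
  have h1 : Tendsto (fun n : ℕ => K ^ (1 / (n : ℝ)) * s) atTop (𝓝 (K ^ (0 : ℝ) * s)) := by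
    refine Tendsto.mul_const _ ?_
    exact (tendsto_const_nhds (x := K)).rpow tendsto_one_div_atTop_nhds_zero_nat (Or.inl hK.ne')
  rw [Real.rpow_zero, one_mul] at h1
  refine le_of_tendsto_of_tendsto h1 h ?_
  filter_upwards [eventually_ge_atTop 1] with n hn
  have hn0 : (n : ℝ) ≠ 0 := by positivity
  calc K ^ (1 / (n : ℝ)) * s = (K * s ^ n) ^ (1 / (n : ℝ)) := by
        rw [Real.mul_rpow hK.le (by positivity), ← Real.rpow_natCast, ← Real.rpow_mul hs,
          mul_one_div_cancel hn0, Real.rpow_one]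
    _ ≤ ‖T ^ n‖ ^ (1 / (n : ℝ)) :=
        Real.rpow_le_rpow (by positivity) (hT n) (by positivity)

/-- the iterates `I_φ^n 1` -/
noncomputable def vs_u (φ : C(I, I)) (n : ℕ) : C(I, ℝ) := (intSub φ ^ n) 1

theorem vs_u_zero (φ : C(I, I)) (x : I) : vs_u φ 0 x = 1 := by
  simp [vs_u]

theorem vs_u_succ (φ : C(I, I)) (n : ℕ) (x : I) :
    vs_u φ (n + 1) x = ∫ t in Iic (φ x), vs_u φ n t := by
  unfold vs_u
  rw [pow_succ']
  exact vs_intSub_apply φ _ x

theorem vs_u_nonneg (φ : C(I, I)) (n : ℕ) (x : I) : 0 ≤ vs_u φ n x := by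
  induction n generalizing x with
  | zero => rw [vs_u_zero]; exact zero_le_one
  | succ n ih =>
    rw [vs_u_succ]
    exact integral_nonneg fun t => ih t

theorem vs_abs_le (φ : C(I, I)) (f : C(I, ℝ)) (n : ℕ) (x : I) :
    |(intSub φ ^ n) f x| ≤ ‖f‖ * vs_u φ n x := by
  induction n generalizing x with
  | zero =>
    rw [vs_u_zero, mul_one]
    simpa using f.norm_coe_le_norm x
  | succ n ih =>
    rw [vs_u_succ, pow_succ']
    change |intSub φ ((intSub φ ^ n) f) x| ≤ _
    rw [vs_intSub_apply, ← integral_const_mul]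
    refine (abs_integral_le_integral_abs).trans ?_
    refine integral_mono ?_ ?_ fun t => ih t
    · exact (vs_integrable ((intSub φ ^ n) f)).integrableOn.abs
    · exact (vs_integrable (vs_u φ n)).integrableOn.const_mul _

theorem vs_norm_le (φ : C(I, I)) (n : ℕ) {c : ℝ} (hc : 0 ≤ c)
    (h : ∀ x, vs_u φ n x ≤ c) : ‖intSub φ ^ n‖ ≤ c := by
  refine ContinuousLinearMap.opNorm_le_bound _ hc fun f => ?_
  refine (ContinuousMap.norm_le _ (by positivity)).2 fun x => ?_
  rw [Real.norm_eq_abs]
  refine (vs_abs_le φ f n x).trans ?_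
  rw [mul_comm]
  exact mul_le_mul_of_nonneg_right (h x) (norm_nonneg _)

theorem vs_le_norm (φ : C(I, I)) (n : ℕ) (x : I) :
    vs_u φ n x ≤ ‖intSub φ ^ n‖ := by
  have h1 : vs_u φ n x ≤ ‖vs_u φ n‖ :=
    (le_abs_self _).trans ((vs_u φ n).norm_coe_le_norm x)
  have h2 : ‖vs_u φ n‖ ≤ ‖intSub φ ^ n‖ * ‖(1 : C(I, ℝ))‖ :=
    (intSub φ ^ n).le_opNorm 1
  have h3 : ‖(1 : C(I, ℝ))‖ ≤ 1 := by
    refine (ContinuousMap.norm_le _ zero_le_one).2 fun x => ?_
    simp
  nlinarith [norm_nonneg (intSub φ ^ n)]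

theorem vs_meas (φ : C(I, I)) : MeasurableSet {p : I × I | p.2 ≤ φ p.1} :=
  (isClosed_le continuous_snd (φ.continuous.comp continuous_fst)).measurableSet

theorem vs_swap (φ : C(I, I)) (w g : C(I, ℝ)) :
    ∫ x, w x * (∫ t in Iic (φ x), g t) = ∫ t, g t * (∫ x in {x | t ≤ φ x}, w x) := by
  have h1 : ∀ x : I, w x * (∫ t in Iic (φ x), g t)
      = ∫ t, {p : I × I | p.2 ≤ φ p.1}.indicator (fun p => w p.1 * g p.2) (x, t) := by
    intro x
    rw [← integral_const_mul, ← integral_indicator measurableSet_Iic]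
    rfl
  have h2 : ∀ t : I, g t * (∫ x in {x | t ≤ φ x}, w x)
      = ∫ x, {p : I × I | p.2 ≤ φ p.1}.indicator (fun p => w p.1 * g p.2) (x, t) := by
    intro t
    have hm : MeasurableSet {x : I | t ≤ φ x} :=
      (isClosed_le continuous_const φ.continuous).measurableSet
    rw [← integral_const_mul, ← integral_indicator hm]
    refine integral_congr_ae (Eventually.of_forall fun x => ?_)
    simp only [indicator, mem_ofPred_eq]
    split_ifs
    · ring
    · rfl
  simp_rw [h1, h2]
  apply integral_integral_swap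
  have hcont : Continuous fun p : I × I => w p.1 * g p.2 := by fun_prop
  have : Integrable (fun p : I × I => w p.1 * g p.2) ((volume : Measure I).prod volume) :=
    hcont.integrable_of_hasCompactSupport (HasCompactSupport.of_compactSpace _)
  exact this.indicator (vs_meas φ)

/-- The weight lemma. -/
theorem vs_weight (φ : C(I, I)) (w : C(I, ℝ)) {c s r : ℝ} (hc : 0 < c) (hs : 0 < s)
    (hw : ∀ x, c ≤ w x) (h : ∀ t, ∫ x in {x | t ≤ φ x}, w x ≤ s * w t)
    (hr : HasRadius (intSub φ) r) : r ≤ s := by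
  have hI : ∀ n, ∫ x, w x * vs_u φ n x ≤ (∫ x, w x) * s ^ n := by
    intro n
    induction n with
    | zero => simp [vs_u_zero]
    | succ n ih =>
      simp_rw [vs_u_succ]
      rw [vs_swap]
      have h1 : ∫ t, vs_u φ n t * (∫ x in {x | t ≤ φ x}, w x)
          ≤ ∫ t, s * (w t * vs_u φ n t) := by
        refine integral_mono_of_nonneg (Eventually.of_forall fun t => ?_) ?_
          (Eventually.of_forall fun t => ?_)
        · exact mul_nonneg (vs_u_nonneg φ n t)
            (integral_nonneg fun x => hc.le.trans (hw x))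
        · exact (vs_integrable (w * vs_u φ n)).const_mul s
        · have := mul_le_mul_of_nonneg_left (h t) (vs_u_nonneg φ n t)
          simp only
          linarith
      rw [integral_const_mul] at h1
      refine h1.trans ?_
      have := mul_le_mul_of_nonneg_left ih hs.le
      rw [pow_succ]
      linarith
  have hW : 0 ≤ ∫ x, w x := integral_nonneg fun x => hc.le.trans (hw x)
  have hu : ∀ n x, vs_u φ (n + 1) x ≤ ((∫ x, w x) / c) * s ^ n := by
    intro n x
    rw [vs_u_succ]
    have h1 : ∫ t in Iic (φ x), vs_u φ n t ≤ ∫ t, vs_u φ n t :=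
      setIntegral_le_integral (vs_integrable _)
        (Eventually.of_forall fun t => vs_u_nonneg φ n t)
    have h2 : c * ∫ t, vs_u φ n t ≤ ∫ x, w x * vs_u φ n x := by
      rw [← integral_const_mul]
      refine integral_mono ((vs_integrable _).const_mul _)
        (vs_integrable (w * vs_u φ n)) fun t => ?_
      exact mul_le_mul_of_nonneg_right (hw t) (vs_u_nonneg φ n t)
    have h3 := h2.trans (hI n)
    rw [div_mul_eq_mul_div, le_div_iff₀ hc]
    nlinarith
  refine vs_radius_le hr (K := (∫ x, w x) / (c * s) + 1) (s := s) (by positivity) hs.le ?_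
  intro n
  rcases n with _ | n
  · have h1 : ‖intSub φ ^ 0‖ ≤ 1 := by
      rw [pow_zero]
      exact ContinuousLinearMap.norm_id_le
    have h2 : 0 ≤ (∫ x, w x) / (c * s) := by positivity
    have h3 : s ^ 0 = 1 := pow_zero s
    rw [h3, mul_one]
    exact h1.trans (by linarith)
  · refine (vs_norm_le φ (n + 1) (by positivity) (hu n)).trans ?_
    have h2 : (∫ x, w x) / c * s ^ n = (∫ x, w x) / (c * s) * s ^ (n + 1) := by
      rw [pow_succ]
      field_simp
    rw [h2]
    have : (0 : ℝ) ≤ s ^ (n + 1) := by positivity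
    nlinarith

/-! ### The quantity `crossing` -/

theorem vs_measE (φ : C(I, I)) (b : I) :
    MeasurableSet {x : I | x ≤ b ∧ b ≤ φ x} :=
  ((isClosed_le continuous_id continuous_const).inter
    (isClosed_le continuous_const φ.continuous)).measurableSet

theorem vs_bdd (φ : C(I, I)) :
    BddAbove (range fun b : I => (volume : Measure I).real {x : I | x ≤ b ∧ b ≤ φ x}) :=
  ⟨1, by rintro _ ⟨b, rfl⟩; exact measureReal_le_one⟩

theorem vs_le_crossing (φ : C(I, I)) (b : I) :
    (volume : Measure I).real {x : I | x ≤ b ∧ b ≤ φ x} ≤ crossing φ :=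
  le_ciSup (vs_bdd φ) b

theorem vs_crossing_le (φ : C(I, I)) {c : ℝ}
    (h : ∀ b, (volume : Measure I).real {x : I | x ≤ b ∧ b ≤ φ x} ≤ c) : crossing φ ≤ c :=
  ciSup_le h

theorem vs_crossing_nonneg (φ : C(I, I)) : 0 ≤ crossing φ :=
  measureReal_nonneg.trans (vs_le_crossing φ 0)

theorem vs_crossing_le_one (φ : C(I, I)) : crossing φ ≤ 1 :=
  vs_crossing_le φ fun _ => measureReal_le_one

/-! ### The lower bound -/

theorem vs_lower (φ : C(I, I)) {r : ℝ} (hr : HasRadius (intSub φ) r) (h0 : 0 ≤ r) :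
    crossing φ ≤ r := by
  refine vs_crossing_le φ fun b => ?_
  set E : Set I := {x : I | x ≤ b ∧ b ≤ φ x} with hE
  set e : ℝ := (volume : Measure I).real E with he
  rcases E.eq_empty_or_nonempty with h | ⟨x0, hx0⟩
  · rw [he, h]
    simpa using h0
  have he0 : 0 ≤ e := measureReal_nonneg
  have key : ∀ n : ℕ, ∀ x ∈ E, e ^ n ≤ vs_u φ n x := by
    intro n
    induction n with
    | zero => intro x _; rw [vs_u_zero, pow_zero]
    | succ n ih =>
      intro x hx
      rw [vs_u_succ]
      have h1 : ∫ t in E, vs_u φ n t ≤ ∫ t in Iic (φ x), vs_u φ n t := by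
        refine setIntegral_mono_set (vs_integrable _).integrableOn
          (Eventually.of_forall fun t => vs_u_nonneg φ n t) ?_
        refine Eventually.of_forall fun t ht => ?_
        exact ht.1.trans hx.2
      have h2 : ∫ t in E, (e ^ n : ℝ) ≤ ∫ t in E, vs_u φ n t := by
        refine setIntegral_mono_on (integrableOn_const (by finiteness))
          (vs_integrable _).integrableOn (vs_measE φ b) ih
      rw [setIntegral_const, smul_eq_mul] at h2
      rw [pow_succ]
      have : (volume : Measure I).real E = e := rfl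
      rw [this] at h2
      linarith
  refine vs_le_radius hr (K := 1) one_pos he0 fun n => ?_
  rw [one_mul]
  exact (key n x0 hx0).trans (vs_le_norm φ n x0)

/-! ### The upper bound -/

theorem vs_setUnion (φ : C(I, I)) (w : C(I, ℝ)) (hw0 : ∀ x, 0 ≤ w x)
    (hw1 : ∀ x, w x ≤ 1) (t : I) :
    ∫ x in {x | t ≤ φ x}, w x ≤ (∫ x in Icc t 1, w x) + crossing φ := by
  have hsub : {x : I | t ≤ φ x} ⊆ Icc t 1 ∪ {x : I | x ≤ t ∧ t ≤ φ x} := by
    intro x hx
    rcases le_total t x with h | h
    · exact Or.inl ⟨h, unitInterval.le_one x⟩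
    · exact Or.inr ⟨h, hx⟩
  have h1 : ∫ x in {x | t ≤ φ x}, w x
      ≤ ∫ x in Icc t 1 ∪ {x : I | x ≤ t ∧ t ≤ φ x}, w x :=
    setIntegral_mono_set (vs_integrable _).integrableOn
      (Eventually.of_forall hw0) (Eventually.of_forall hsub)
  have h2 : ∫ x in Icc t 1 ∪ {x : I | x ≤ t ∧ t ≤ φ x}, w x
      ≤ (∫ x in Icc t 1, w x) + ∫ x in {x : I | x ≤ t ∧ t ≤ φ x}, w x := by
    rw [← union_sdiff_self, setIntegral_union disjoint_sdiff_right
      ((vs_measE φ t).diff measurableSet_Icc) (vs_integrable _).integrableOn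
      (vs_integrable _).integrableOn]
    have h3 : ∫ x in {x : I | x ≤ t ∧ t ≤ φ x} \ Icc t 1, w x
        ≤ ∫ x in {x : I | x ≤ t ∧ t ≤ φ x}, w x :=
      setIntegral_mono_set (vs_integrable _).integrableOn
        (Eventually.of_forall hw0) (Eventually.of_forall sdiff_subset)
    linarith
  have h4 : ∫ x in {x : I | x ≤ t ∧ t ≤ φ x}, w x
      ≤ ∫ x in {x : I | x ≤ t ∧ t ≤ φ x}, (1 : ℝ) := by
    refine setIntegral_mono_on (vs_integrable _).integrableOn
      (integrableOn_const (by finiteness)) (vs_measE φ t) fun x _ => hw1 x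
  rw [setIntegral_const, smul_eq_mul, mul_one] at h4
  have := vs_le_crossing φ t
  linarith

/-- the weight -/
noncomputable def vs_w (m s : ℝ) : C(I, ℝ) where
  toFun x := Real.exp (-(max ((x : ℝ) - m) 0) / s)
  continuous_toFun := by fun_prop

theorem vs_w_apply (m s : ℝ) (x : I) :
    vs_w m s x = Real.exp (-(max ((x : ℝ) - m) 0) / s) := rfl

theorem vs_w_tail {m s : ℝ} (hs : 0 < s) (t : I) (ht : m ≤ t) :
    ∫ x in Icc t 1, vs_w m s x
      = s * Real.exp (-((t : ℝ) - m) / s) - s * Real.exp (-(1 - m) / s) := by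
  have h1 : ∫ x in Icc t 1, vs_w m s x
      = ∫ x in (t : ℝ)..((1 : I) : ℝ), Real.exp (-(max (x - m) 0) / s) :=
    vs_conv (fun x : ℝ => Real.exp (-(max (x - m) 0) / s)) t 1 (unitInterval.le_one t)
  rw [h1]
  have ht1 : (t : ℝ) ≤ ((1 : I) : ℝ) := unitInterval.le_one t
  have h2 : ∫ x in (t : ℝ)..((1 : I) : ℝ), Real.exp (-(max (x - m) 0) / s)
      = ∫ x in (t : ℝ)..((1 : I) : ℝ), Real.exp (-(x - m) / s) := by
    refine intervalIntegral.integral_congr fun x hx => ?_
    rw [uIcc_of_le ht1] at hx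
    rw [max_eq_left (by linarith [hx.1])]
  rw [h2]
  have h3 : ∀ x ∈ uIcc (t : ℝ) ((1 : I) : ℝ), HasDerivAt
      (fun x : ℝ => -s * Real.exp (-(x - m) / s)) (Real.exp (-(x - m) / s)) x := by
    intro x _
    have h4 : HasDerivAt (fun x : ℝ => -(x - m) / s) (-1 / s) x := by
      have := (((hasDerivAt_id x).sub_const m).neg).div_const s
      simpa using this
    have h5 := (h4.exp).const_mul (-s)
    have h6 : -s * (Real.exp (-(x - m) / s) * (-1 / s)) = Real.exp (-(x - m) / s) := by
      field_simp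
    rw [h6] at h5
    exact h5
  rw [intervalIntegral.integral_eq_sub_of_hasDerivAt h3
    (Continuous.intervalIntegrable (by fun_prop) _ _)]
  simp only [Icc.coe_one]
  ring

theorem vs_upper (φ : C(I, I)) {r s : ℝ} (hr : HasRadius (intSub φ) r) (hs : 0 < s)
    (h : crossing φ ≤ s * Real.exp (-(1 - crossing φ) / s)) : r ≤ s := by
  have hm0 := vs_crossing_nonneg φ
  have hm1 := vs_crossing_le_one φ
  set m := crossing φ with hm
  have hw0 : ∀ x, 0 ≤ vs_w m s x := fun x => (Real.exp_pos _).le
  have hw1 : ∀ x, vs_w m s x ≤ 1 := fun x => by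
    rw [vs_w_apply, Real.exp_le_one_iff]
    exact div_nonpos_of_nonpos_of_nonneg (neg_nonpos.2 (le_max_right _ _)) hs.le
  refine vs_weight φ (vs_w m s) (c := Real.exp (-1 / s)) (Real.exp_pos _) hs
    ?_ ?_ hr
  · intro x
    rw [vs_w_apply, Real.exp_le_exp]
    gcongr
    exact max_le (by linarith [x.2.2]) zero_le_one
  · intro t
    rcases le_or_gt m t with hmt | hmt
    · have h1 := vs_setUnion φ (vs_w m s) hw0 hw1 t
      rw [vs_w_tail hs t hmt] at h1
      rw [vs_w_apply, max_eq_left (by linarith)]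
      linarith
    · rw [vs_w_apply, max_eq_right (by linarith), neg_zero, zero_div, Real.exp_zero,
        mul_one]
      let m' : I := ⟨m, hm0, hm1⟩
      have h1 : ∫ x in {x | t ≤ φ x}, vs_w m s x
          ≤ ∫ x in Iic m' ∪ Icc m' 1, vs_w m s x := by
        refine setIntegral_mono_set (vs_integrable _).integrableOn
          (Eventually.of_forall hw0) (Eventually.of_forall ?_)
        intro x _
        rcases le_total x m' with h | h
        · exact Or.inl h
        · exact Or.inr ⟨h, unitInterval.le_one x⟩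
      have h2 : ∫ x in Iic m' ∪ Icc m' 1, vs_w m s x
          ≤ (∫ x in Iic m', vs_w m s x) + ∫ x in Icc m' 1, vs_w m s x := by
        rw [← union_sdiff_self, setIntegral_union disjoint_sdiff_right
          (measurableSet_Icc.diff measurableSet_Iic) (vs_integrable _).integrableOn
          (vs_integrable _).integrableOn]
        have h3 : ∫ x in Icc m' 1 \ Iic m', vs_w m s x
            ≤ ∫ x in Icc m' 1, vs_w m s x :=
          setIntegral_mono_set (vs_integrable _).integrableOn
            (Eventually.of_forall hw0) (Eventually.of_forall sdiff_subset)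
        linarith
      have h4 : ∫ x in Iic m', vs_w m s x ≤ ∫ x in Iic m', (1 : ℝ) :=
        setIntegral_mono_on (vs_integrable _).integrableOn
          (integrableOn_const (by finiteness)) measurableSet_Iic fun x _ => hw1 x
      rw [setIntegral_const, smul_eq_mul, mul_one, Measure.real, unitInterval.volume_Iic,
        ENNReal.toReal_ofReal hm0] at h4
      have h5 := vs_w_tail (m := m) hs m' le_rfl
      rw [show ((m' : I) : ℝ) = m from rfl, sub_self, neg_zero, zero_div, Real.exp_zero] at h5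
      have : ((m' : I) : ℝ) = m := rfl
      linarith

/-- The upper bound in implicit form. -/
theorem vs_upper' (φ : C(I, I)) {r : ℝ} (hr : HasRadius (intSub φ) r) (h0 : 0 ≤ r) :
    r * Real.exp (-(1 - crossing φ) / r) ≤ crossing φ := by
  rcases h0.eq_or_lt with h | h
  · rw [← h]
    simpa using vs_crossing_nonneg φ
  by_contra hcon
  push Not at hcon
  have hc : ContinuousAt (fun s : ℝ => s * Real.exp (-(1 - crossing φ) / s)) r := by
    refine continuousAt_id.mul (Real.continuous_exp.continuousAt.comp ?_)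
    exact continuousAt_const.div continuousAt_id h.ne'
  have h1 : ∀ᶠ s in 𝓝 r, crossing φ < s * Real.exp (-(1 - crossing φ) / s) :=
    hc.eventually (lt_mem_nhds hcon)
  have h2 : ∀ᶠ s in 𝓝[<] r, 0 < s ∧ s < r ∧ crossing φ < s * Real.exp (-(1 - crossing φ) / s) := by
    filter_upwards [h1.filter_mono nhdsWithin_le_nhds, self_mem_nhdsWithin,
      (lt_mem_nhds h).filter_mono nhdsWithin_le_nhds] with s a b c
    exact ⟨c, b, a⟩
  obtain ⟨s, hs0, hsr, hs⟩ := h2.exists
  exact absurd (vs_upper φ hr hs0 hs.le) (not_le.2 hsr)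

/-! ### The bound by `excess` -/

theorem vs_le_excess (φ : C(I, I)) (x : I) : (φ x : ℝ) - x ≤ excess φ := by
  refine le_ciSup (f := fun x : I => (φ x : ℝ) - x) ⟨1, ?_⟩ x
  rintro _ ⟨y, rfl⟩
  have h1 := (φ y).2.2
  have h2 := y.2.1
  simp only
  linarith

theorem vs_excess_nonneg (φ : C(I, I)) : 0 ≤ excess φ := by
  have h1 := vs_le_excess φ 0
  have h2 := (φ 0).2.1
  simp only [Icc.coe_zero, sub_zero] at h1
  linarith

theorem vs_exp_bound (φ : C(I, I)) {μ : ℝ} (hμ : 0 < μ) (n : ℕ) (x : I) :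
    vs_u φ n x ≤ (Real.exp (μ * excess φ) / μ) ^ n * Real.exp (μ * x) := by
  induction n generalizing x with
  | zero =>
    rw [vs_u_zero, pow_zero, one_mul]
    exact Real.one_le_exp (mul_nonneg hμ.le x.2.1)
  | succ n ih =>
    rw [vs_u_succ]
    set c := Real.exp (μ * excess φ) / μ with hc
    have hc0 : 0 ≤ c := by positivity
    let g : C(I, ℝ) := ⟨fun t : I => Real.exp (μ * (t : ℝ)), by fun_prop⟩
    have h1 : ∫ t in Iic (φ x), vs_u φ n t ≤ ∫ t in Iic (φ x), c ^ n * g t :=
      setIntegral_mono_on (vs_integrable _).integrableOn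
        ((vs_integrable g).integrableOn.const_mul _) measurableSet_Iic
        fun t _ => ih t
    rw [integral_const_mul] at h1
    have h2 : ∫ t in Iic (φ x), g t = ∫ t in ((0 : I) : ℝ)..(φ x : ℝ), Real.exp (μ * t) := by
      rw [vs_Iic]
      exact vs_conv (fun t : ℝ => Real.exp (μ * t)) 0 (φ x) (unitInterval.nonneg _)
    have h3 : ∫ t in ((0 : I) : ℝ)..(φ x : ℝ), Real.exp (μ * t)
        = Real.exp (μ * (φ x : ℝ)) / μ - 1 / μ := by
      have h4 : ∀ t ∈ uIcc ((0 : I) : ℝ) (φ x : ℝ), HasDerivAt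
          (fun t : ℝ => Real.exp (μ * t) / μ) (Real.exp (μ * t)) t := by
        intro t _
        have h5 : HasDerivAt (fun t : ℝ => μ * t) μ t := by
          simpa using (hasDerivAt_id t).const_mul μ
        have h6 := (h5.exp).div_const μ
        rw [mul_div_assoc, div_self hμ.ne', mul_one] at h6
        exact h6
      rw [intervalIntegral.integral_eq_sub_of_hasDerivAt h4
        (Continuous.intervalIntegrable (by fun_prop) _ _)]
      simp
    have h7 : Real.exp (μ * (φ x : ℝ)) ≤ Real.exp (μ * excess φ) * Real.exp (μ * x) := by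
      rw [← Real.exp_add, Real.exp_le_exp]
      have := vs_le_excess φ x
      nlinarith
    have h8 : ∫ t in Iic (φ x), g t ≤ c * Real.exp (μ * x) := by
      rw [h2, h3, hc]
      have h9 : Real.exp (μ * (φ x : ℝ)) / μ
          ≤ Real.exp (μ * excess φ) * Real.exp (μ * x) / μ := by gcongr
      have h10 : 0 < 1 / μ := by positivity
      have h11 : Real.exp (μ * excess φ) * Real.exp (μ * x) / μ
        = Real.exp (μ * excess φ) / μ * Real.exp (μ * x) := by ring
      linarith
    calc _ ≤ c ^ n * ∫ t in Iic (φ x), g t := h1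
      _ ≤ c ^ n * (c * Real.exp (μ * x)) := by gcongr
      _ = c ^ (n + 1) * Real.exp (μ * x) := by ring

theorem vs_excess_aux (φ : C(I, I)) {r μ : ℝ} (hr : HasRadius (intSub φ) r)
    (hμ : 0 < μ) : r ≤ Real.exp (μ * excess φ) / μ := by
  refine vs_radius_le hr (K := Real.exp μ) (Real.exp_pos _) (by positivity) fun n => ?_
  refine vs_norm_le φ n (by positivity) fun x => ?_
  refine (vs_exp_bound φ hμ n x).trans ?_
  rw [mul_comm]
  gcongr
  have := x.2.2
  nlinarith

theorem vs_excess (φ : C(I, I)) {r : ℝ} (hr : HasRadius (intSub φ) r) :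
    r ≤ Real.exp 1 * excess φ := by
  rcases (vs_excess_nonneg φ).eq_or_lt with h | h
  · rw [← h, mul_zero]
    refine le_of_forall_pos_le_add fun ε hε => ?_
    have h1 := vs_excess_aux φ hr (one_div_pos.2 hε)
    rw [← h] at h1
    simpa using h1
  · have h1 := vs_excess_aux φ hr (one_div_pos.2 h)
    rw [one_div_mul_cancel h.ne'] at h1
    simpa using h1

theorem vs_crossing_le_excess (φ : C(I, I)) : crossing φ ≤ excess φ := by
  refine vs_crossing_le φ fun b => ?_
  have hd := vs_excess_nonneg φ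
  let a : I := ⟨max ((b : ℝ) - excess φ) 0, le_max_right _ _,
    max_le (by linarith [b.2.2]) zero_le_one⟩
  have hsub : {x : I | x ≤ b ∧ b ≤ φ x} ⊆ Icc a b := by
    rintro x ⟨h1, h2⟩
    refine ⟨?_, h1⟩
    change max ((b : ℝ) - excess φ) 0 ≤ x
    have h3 := vs_le_excess φ x
    have h4 : (b : ℝ) ≤ φ x := h2
    exact max_le (by linarith) x.2.1
  have h1 : (volume : Measure I).real {x : I | x ≤ b ∧ b ≤ φ x}
      ≤ (volume : Measure I).real (Icc a b) := measureReal_mono hsub
  have h2 : (volume : Measure I).real (Icc a b) ≤ excess φ := by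
    rw [Measure.real, unitInterval.volume_Icc, ENNReal.toReal_ofReal']
    refine max_le ?_ hd
    change (b : ℝ) - max ((b : ℝ) - excess φ) 0 ≤ _
    have := le_max_left ((b : ℝ) - excess φ) 0
    linarith
  exact h1.trans h2

theorem vs_mono (φ : C(I, I)) (hφ : Monotone φ) : crossing φ = excess φ := by
  refine le_antisymm (vs_crossing_le_excess φ) ?_
  refine ciSup_le fun x => ?_
  rcases le_total (φ x) x with h | h
  · have : (φ x : ℝ) ≤ x := h
    linarith [vs_crossing_nonneg φ]
  · have h1 : Icc x (φ x) ⊆ {y : I | y ≤ φ x ∧ φ x ≤ φ y} := fun y hy => ⟨hy.2, hφ hy.1⟩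
    have h2 : (volume : Measure I).real (Icc x (φ x))
        ≤ (volume : Measure I).real {y : I | y ≤ φ x ∧ φ x ≤ φ y} := measureReal_mono h1
    rw [Measure.real, unitInterval.volume_Icc, ENNReal.toReal_ofReal
      (sub_nonneg.2 (show (x : ℝ) ≤ φ x from h))] at h2
    exact h2.trans (vs_le_crossing φ (φ x))

theorem vs_zero_iff (φ : C(I, I)) {r : ℝ} (hr : HasRadius (intSub φ) r) (h0 : 0 ≤ r) :
    r = 0 ↔ ∀ x, φ x ≤ x := by
  constructor
  · intro h
    by_contra hcon
    push Not at hcon
    obtain ⟨x, hx⟩ := hcon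
    obtain ⟨b, hb1, hb2⟩ := exists_between hx
    have h1 : ∀ᶠ y in 𝓝 x, b < φ y := φ.continuous.continuousAt.eventually (lt_mem_nhds hb2)
    obtain ⟨ε, hε, h2⟩ := Metric.eventually_nhds_iff.1 h1
    have hxb : (x : ℝ) < b := hb1
    let c : I := ⟨min (b : ℝ) (x + ε / 2), le_min b.2.1 (by linarith [x.2.1]),
      (min_le_left _ _).trans b.2.2⟩
    have hc1 : (c : ℝ) ≤ b := min_le_left _ _
    have hc2 : (c : ℝ) ≤ x + ε / 2 := min_le_right _ _
    have hc3 : (x : ℝ) < c := lt_min hxb (by linarith)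
    have h3 : Icc x c ⊆ {y : I | y ≤ b ∧ b ≤ φ y} := by
      intro y hy
      have hy1 : (x : ℝ) ≤ y := hy.1
      have hy2 : (y : ℝ) ≤ c := hy.2
      refine ⟨show (y : ℝ) ≤ b by linarith, (h2 ?_).le⟩
      rw [Subtype.dist_eq, Real.dist_eq, abs_of_nonneg (by linarith)]
      linarith
    have h4 : (volume : Measure I).real (Icc x c)
        ≤ (volume : Measure I).real {y : I | y ≤ b ∧ b ≤ φ y} := measureReal_mono h3
    rw [Measure.real, unitInterval.volume_Icc, ENNReal.toReal_ofReal (by linarith)] at h4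
    have h5 := vs_lower φ hr h0
    have h6 := vs_le_crossing φ b
    linarith
  · intro h
    refine le_antisymm ?_ h0
    have h1 : excess φ ≤ 0 := ciSup_le fun x => by
      have : (φ x : ℝ) ≤ x := h x
      linarith
    have h2 := vs_excess φ hr
    nlinarith [Real.exp_pos 1]

/-! ### The lower bound is best possible -/

/-- the function `max x (min 1 (a + K (x - a)))` -/
noncomputable def vs_phi1 (a K : ℝ) : C(I, I) where
  toFun x := ⟨max (x : ℝ) (min 1 (a + K * ((x : ℝ) - a))), le_max_of_le_left x.2.1,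
    max_le x.2.2 (min_le_left _ _)⟩
  continuous_toFun := Continuous.subtype_mk (by fun_prop) _

theorem vs_phi1_apply (a K : ℝ) (x : I) :
    (vs_phi1 a K x : ℝ) = max (x : ℝ) (min 1 (a + K * ((x : ℝ) - a))) := rfl

/-- the weight -/
noncomputable def vs_w1 (a s : ℝ) : C(I, ℝ) where
  toFun x := Real.exp ((max (a - (x : ℝ)) 0) / s)
  continuous_toFun := by fun_prop

theorem vs_w1_apply (a s : ℝ) (x : I) :
    vs_w1 a s x = Real.exp ((max (a - (x : ℝ)) 0) / s) := rfl

theorem vs_w1_int {s : ℝ} (hs : 0 < s) (c a : I) (hca : c ≤ a) :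
    ∫ x in Icc c a, vs_w1 (a : ℝ) s x = s * Real.exp (((a : ℝ) - c) / s) - s := by
  have h1 : ∫ x in Icc c a, vs_w1 (a : ℝ) s x
      = ∫ x in (c : ℝ)..(a : ℝ), Real.exp ((max ((a : ℝ) - x) 0) / s) :=
    vs_conv (fun x : ℝ => Real.exp ((max ((a : ℝ) - x) 0) / s)) c a hca
  rw [h1]
  have hca' : (c : ℝ) ≤ a := hca
  have h2 : ∫ x in (c : ℝ)..(a : ℝ), Real.exp ((max ((a : ℝ) - x) 0) / s)
      = ∫ x in (c : ℝ)..(a : ℝ), Real.exp (((a : ℝ) - x) / s) := by
    refine intervalIntegral.integral_congr fun x hx => ?_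
    rw [uIcc_of_le hca'] at hx
    rw [max_eq_left (by linarith [hx.2])]
  rw [h2]
  have h3 : ∀ x ∈ uIcc (c : ℝ) (a : ℝ), HasDerivAt
      (fun x : ℝ => -s * Real.exp (((a : ℝ) - x) / s)) (Real.exp (((a : ℝ) - x) / s)) x := by
    intro x _
    have h4 : HasDerivAt (fun x : ℝ => ((a : ℝ) - x) / s) (-1 / s) x := by
      have := ((hasDerivAt_id x).const_sub (a : ℝ)).div_const s
      simpa using this
    have h5 := (h4.exp).const_mul (-s)
    have h6 : -s * (Real.exp (((a : ℝ) - x) / s) * (-1 / s)) = Real.exp (((a : ℝ) - x) / s) := by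
      field_simp
    rw [h6] at h5
    exact h5
  rw [intervalIntegral.integral_eq_sub_of_hasDerivAt h3
    (Continuous.intervalIntegrable (by fun_prop) _ _)]
  simp only [sub_self, zero_div, Real.exp_zero, mul_one]
  ring

theorem vs_opt1 {m ε : ℝ} (hm0 : 0 < m) (hm1 : m < 1) (hε : 0 < ε) :
    ∃ φ : C(I, I), φ 0 = 0 ∧ Monotone φ ∧ crossing φ = m ∧
      ∃ r, HasRadius (intSub φ) r ∧ 0 ≤ r ∧ r ≤ m + ε := by
  obtain ⟨L, hL1, hL2⟩ := exists_between (show m < min 1 (m + ε) from lt_min hm1 (by linarith))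
  have hL3 : L < 1 := hL2.trans_le (min_le_left _ _)
  have hL4 : L < m + ε := hL2.trans_le (min_le_right _ _)
  have hLm : 0 < L - m := by linarith
  have hL0 : 0 < L := by linarith
  set K : ℝ := L / (L - m) with hK
  have hK1 : 1 ≤ K := by
    rw [hK, le_div_iff₀ hLm]; linarith
  have hKL : K * (L - m) = L := by rw [hK]; field_simp
  let a : I := ⟨1 - L, by linarith, by linarith⟩
  have ha : (a : ℝ) = 1 - L := rfl
  let φ := vs_phi1 (a : ℝ) K
  have hφ : ∀ x, (φ x : ℝ) = max (x : ℝ) (min 1 ((a : ℝ) + K * ((x : ℝ) - a))) := fun x => rfl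
  have hmono : Monotone φ := by
    intro x y hxy
    have hxy' : (x : ℝ) ≤ y := hxy
    change (φ x : ℝ) ≤ φ y
    rw [hφ, hφ]
    gcongr
  have hcross : crossing φ = m := by
    rw [vs_mono φ hmono]
    apply le_antisymm
    · refine ciSup_le fun x => ?_
      rw [hφ]
      have : max (x : ℝ) (min 1 ((a : ℝ) + K * ((x : ℝ) - a))) ≤ m + x := by
        refine max_le (by linarith) ?_
        rcases le_total (x : ℝ) (1 - m) with h | h
        · refine (min_le_right _ _).trans ?_
          rw [ha]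
          nlinarith
        · refine (min_le_left _ _).trans ?_
          linarith
      linarith
    · have h1 := vs_le_excess φ ⟨1 - m, by linarith, by linarith⟩
      rw [hφ] at h1
      have h2 : (1 : ℝ) ≤ max (1 - m) (min 1 ((a : ℝ) + K * ((1 - m) - a))) := by
        refine le_max_of_le_right (le_min le_rfl ?_)
        rw [ha]
        have : K * (1 - m - (1 - L)) = L := by
          rw [show 1 - m - (1 - L) = L - m by ring, hKL]
        linarith
      simp only at h1
      linarith
  refine ⟨φ, ?_, hmono, hcross, ?_⟩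
  · ext
    rw [hφ]
    simp only [Icc.coe_zero, zero_sub]
    apply max_eq_left
    refine (min_le_right _ _).trans ?_
    have : 0 ≤ (a : ℝ) := a.2.1
    nlinarith
  · obtain ⟨r, hr0, hr⟩ := vs_exists (intSub φ)
    refine ⟨r, hr, hr0, ?_⟩
    have hw1 : ∀ x, 1 ≤ vs_w1 (a : ℝ) L x := fun x => by
      rw [vs_w1_apply]
      exact Real.one_le_exp (div_nonneg (le_max_right _ _) hL0.le)
    have hw0 : ∀ x, 0 ≤ vs_w1 (a : ℝ) L x := fun x => zero_le_one.trans (hw1 x)
    have h1 : r ≤ L := by
      refine vs_weight φ (vs_w1 (a : ℝ) L) one_pos hL0 hw1 ?_ hr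
      intro t
      set c : I := min t a with hc
      have hca : c ≤ a := min_le_right _ _
      have hsub : {x : I | t ≤ φ x} ⊆ Icc c a ∪ Icc a 1 := by
        intro x hx
        rcases le_total a x with h | h
        · exact Or.inr ⟨h, unitInterval.le_one x⟩
        · refine Or.inl ⟨?_, h⟩
          have h' : (x : ℝ) ≤ a := h
          have h2 : (φ x : ℝ) = x := by
            rw [hφ]
            apply max_eq_left
            refine (min_le_right _ _).trans ?_
            nlinarith
          have h3 : φ x = x := Subtype.ext h2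
          have h4 : t ≤ φ x := hx
          rw [h3] at h4
          exact (min_le_left _ _).trans h4
      have h2 : ∫ x in {x | t ≤ φ x}, vs_w1 (a : ℝ) L x
          ≤ ∫ x in Icc c a ∪ Icc a 1, vs_w1 (a : ℝ) L x :=
        setIntegral_mono_set (vs_integrable _).integrableOn
          (Eventually.of_forall hw0) (Eventually.of_forall hsub)
      have h3 : ∫ x in Icc c a ∪ Icc a 1, vs_w1 (a : ℝ) L x
          ≤ (∫ x in Icc c a, vs_w1 (a : ℝ) L x)
            + ∫ x in Icc a 1, vs_w1 (a : ℝ) L x := by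
        rw [← union_sdiff_self, setIntegral_union disjoint_sdiff_right
          (measurableSet_Icc.diff measurableSet_Icc) (vs_integrable _).integrableOn
          (vs_integrable _).integrableOn]
        have h3 : ∫ x in Icc a 1 \ Icc c a, vs_w1 (a : ℝ) L x
            ≤ ∫ x in Icc a 1, vs_w1 (a : ℝ) L x :=
          setIntegral_mono_set (vs_integrable _).integrableOn
            (Eventually.of_forall hw0) (Eventually.of_forall sdiff_subset)
        linarith
      have h4 : ∫ x in Icc a 1, vs_w1 (a : ℝ) L x ≤ ∫ x in Icc a 1, (1 : ℝ) := by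
        refine setIntegral_mono_on (vs_integrable _).integrableOn
          (integrableOn_const (by finiteness)) measurableSet_Icc fun x hx => ?_
        have hx1 : (a : ℝ) ≤ x := hx.1
        rw [vs_w1_apply, max_eq_right (by linarith), zero_div, Real.exp_zero]
      rw [setIntegral_const, smul_eq_mul, mul_one, Measure.real, unitInterval.volume_Icc,
        Icc.coe_one, ENNReal.toReal_ofReal (by linarith [a.2.2]), ha] at h4
      rw [vs_w1_int hL0 c a hca] at h3
      have h5 : vs_w1 (a : ℝ) L t = Real.exp (((a : ℝ) - c) / L) := by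
        rw [vs_w1_apply]
        congr 2
        have h6 : (c : ℝ) = min (t : ℝ) a := by
          rcases le_total t a with h | h
          · rw [hc, min_eq_left h, min_eq_left (show (t : ℝ) ≤ a from h)]
          · rw [hc, min_eq_right h, min_eq_right (show (a : ℝ) ≤ t from h)]
        rw [h6]
        rcases le_total (t : ℝ) a with h | h
        · rw [min_eq_left h, max_eq_left (by linarith)]
        · rw [min_eq_right h, max_eq_right (by linarith), sub_self]
      rw [h5]
      linarith
    linarith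

/-! ### The upper bound is best possible -/

/-- the function `min 1 (min (x / η) (max x (1 - L (x - m₁))))` -/
noncomputable def vs_phi2 (η m₁ L : ℝ) (hη : 0 < η) : C(I, I) where
  toFun x := ⟨min 1 (min ((x : ℝ) / η) (max (x : ℝ) (1 - L * ((x : ℝ) - m₁)))),
    le_min zero_le_one (le_min (div_nonneg x.2.1 hη.le) (le_max_of_le_left x.2.1)),
    min_le_left _ _⟩
  continuous_toFun := Continuous.subtype_mk (by fun_prop) _

/-- exponential part of the subsolution -/
noncomputable def vs_g (c m₁ s : ℝ) : C(I, ℝ) where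
  toFun x := c / s * Real.exp (((x : ℝ) - m₁) / s)
  continuous_toFun := by fun_prop

theorem vs_g_int {c s : ℝ} (a b : I) (hab : a ≤ b) :
    ∫ x in Ioc a b, vs_g c a s x = c * Real.exp (((b : ℝ) - a) / s) - c := by
  rw [← integral_Icc_eq_integral_Ioc]
  have h1 : ∫ x in Icc a b, vs_g c a s x
      = ∫ x in (a : ℝ)..(b : ℝ), c / s * Real.exp ((x - (a : ℝ)) / s) :=
    vs_conv (fun x : ℝ => c / s * Real.exp ((x - (a : ℝ)) / s)) a b hab
  rw [h1]
  have h3 : ∀ x ∈ uIcc (a : ℝ) (b : ℝ), HasDerivAt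
      (fun x : ℝ => c * Real.exp ((x - (a : ℝ)) / s)) (c / s * Real.exp ((x - (a : ℝ)) / s)) x := by
    intro x _
    have h4 : HasDerivAt (fun x : ℝ => (x - (a : ℝ)) / s) (1 / s) x := by
      have := ((hasDerivAt_id x).sub_const (a : ℝ)).div_const s
      simpa using this
    have h5 := (h4.exp).const_mul c
    have h6 : c * (Real.exp ((x - (a : ℝ)) / s) * (1 / s))
        = c / s * Real.exp ((x - (a : ℝ)) / s) := by ring
    rw [h6] at h5
    exact h5
  rw [intervalIntegral.integral_eq_sub_of_hasDerivAt h3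
    (Continuous.intervalIntegrable (by fun_prop) _ _)]
  simp

/-- Abstract subsolution lemma. -/
theorem vs_sub (φ : C(I, I)) {r s B : ℝ} (hr : HasRadius (intSub φ) r) (hs : 0 ≤ s)
    (hB : 0 < B) (f : I → ℝ) (hf : Integrable f) (hfB : ∀ x, f x ≤ B)
    (x0 : I) (hx0 : 0 < f x0) (h : ∀ x, s * f x ≤ ∫ t in Iic (φ x), f t) : s ≤ r := by
  have key : ∀ n x, s ^ n * f x / B ≤ vs_u φ n x := by
    intro n
    induction n with
    | zero =>
      intro x
      rw [vs_u_zero, pow_zero, one_mul, div_le_one hB]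
      exact hfB x
    | succ n ih =>
      intro x
      rw [vs_u_succ]
      have h1 : ∫ t in Iic (φ x), s ^ n * f t / B ≤ ∫ t in Iic (φ x), vs_u φ n t :=
        setIntegral_mono_on ((hf.integrableOn.const_mul _).div_const _)
          (vs_integrable _).integrableOn measurableSet_Iic fun t _ => ih t
      rw [integral_div, integral_const_mul] at h1
      refine le_trans ?_ h1
      have h2 : s ^ (n + 1) * f x = s ^ n * (s * f x) := by ring
      rw [h2]
      have h3 : (0 : ℝ) ≤ s ^ n := by positivity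
      gcongr
      exact h x
  refine vs_le_radius hr (K := f x0 / B) (by positivity) hs fun n => ?_
  have h1 := (key n x0).trans (vs_le_norm φ n x0)
  have h2 : s ^ n * f x0 / B = f x0 / B * s ^ n := by ring
  rw [← h2]
  exact h1

theorem vs_opt2 {m s : ℝ} (hm0 : 0 < m) (hm1 : m < 1) (hs : 0 < s)
    (hms : s * Real.exp (-(1 - m) / s) < m) :
    ∃ φ : C(I, I), φ 0 = 0 ∧ crossing φ = m ∧
      ∃ r, HasRadius (intSub φ) r ∧ s ≤ r := by
  set q : ℝ := s * Real.exp (-(1 - m) / s) with hq
  have hq0 : 0 < q := by positivity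
  set η : ℝ := min ((m - q) / 2) ((1 - m) / 2) with hη
  have hη0 : 0 < η := lt_min (by linarith) (by linarith)
  have hη1 : η ≤ (m - q) / 2 := min_le_left _ _
  have hη2 : η ≤ (1 - m) / 2 := min_le_right _ _
  have hη3 : 0 < 1 - η := by linarith
  set m₁ : ℝ := m - η with hm₁
  set m₂ : ℝ := m / (1 - η) with hm₂
  have hmm : m < m₂ := by
    rw [hm₂, lt_div_iff₀ hη3]; nlinarith
  have hm₂1 : m₂ < 1 := by
    rw [hm₂, div_lt_one hη3]; linarith
  have hm₂m : (1 - η) * m₂ = m := by rw [hm₂]; field_simp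
  have hd : 0 < m₂ - m₁ := by linarith
  set L : ℝ := (1 - m₂) / (m₂ - m₁) with hL
  have hL0 : 0 < L := div_pos (by linarith) hd
  have hLd : L * (m₂ - m₁) = 1 - m₂ := by rw [hL]; field_simp
  let φ := vs_phi2 η m₁ L hη0
  have hφ : ∀ x, (φ x : ℝ) = min 1 (min ((x : ℝ) / η) (max (x : ℝ) (1 - L * ((x : ℝ) - m₁)))) :=
    fun x => rfl
  have hφ0 : φ 0 = 0 := by
    ext
    rw [hφ]
    simp only [Icc.coe_zero, zero_div, zero_sub]
    have : (0 : ℝ) ≤ max 0 (1 - L * -m₁) := le_max_left _ _
    rw [min_eq_left this]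
    exact min_eq_right zero_le_one
  have hφx : ∀ x : I, (x : ℝ) ≤ φ x := by
    intro x
    rw [hφ]
    refine le_min x.2.2 (le_min ?_ (le_max_left _ _))
    rw [le_div_iff₀ hη0]
    nlinarith [x.2.1]
  have hcross : crossing φ = m := by
    apply le_antisymm
    · refine vs_crossing_le φ fun b => ?_
      have hb0 := b.2.1
      have hb1 := b.2.2
      let lo : I := ⟨η * b, by positivity, by nlinarith⟩
      let hi : I := ⟨min (b : ℝ) m₂, le_min hb0 (by linarith), (min_le_left _ _).trans hb1⟩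
      have hsub : {x : I | x ≤ b ∧ b ≤ φ x} ⊆ Icc lo hi ∪ {b} := by
        rintro x ⟨h1, h2⟩
        have h1' : (x : ℝ) ≤ b := h1
        have h2' : (b : ℝ) ≤ φ x := h2
        rw [hφ] at h2'
        have h3 : (b : ℝ) ≤ x / η := h2'.trans ((min_le_right _ _).trans (min_le_left _ _))
        have h4 : (b : ℝ) ≤ max (x : ℝ) (1 - L * ((x : ℝ) - m₁)) :=
          h2'.trans ((min_le_right _ _).trans (min_le_right _ _))
        rw [le_div_iff₀ hη0] at h3
        rcases h1'.eq_or_lt with h5 | h5
        · exact Or.inr (Subtype.ext h5)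
        · left
          refine ⟨show η * (b : ℝ) ≤ x by linarith, ?_⟩
          refine le_min h1' ?_
          rcases le_max_iff.1 h4 with h6 | h6
          · linarith
          · by_contra h7
            push Not at h7
            have h8 : L * (x - m₁) ≤ L * (m₂ - m₁) := by
              rw [hLd]; linarith
            have h9 := le_of_mul_le_mul_left h8 hL0
            linarith
      have h1 : (volume : Measure I).real {x : I | x ≤ b ∧ b ≤ φ x}
          ≤ (volume : Measure I).real (Icc lo hi ∪ {b}) := measureReal_mono hsub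
      have h2 : (volume : Measure I).real (Icc lo hi ∪ {b})
          ≤ (volume : Measure I).real (Icc lo hi) + (volume : Measure I).real {b} :=
        measureReal_union_le _ _
      have h3 : (volume : Measure I).real {b} = 0 := by
        rw [Measure.real, measure_singleton, ENNReal.toReal_zero]
      have h4 : (volume : Measure I).real (Icc lo hi) ≤ m := by
        rw [Measure.real, unitInterval.volume_Icc, ENNReal.toReal_ofReal']
        refine max_le ?_ hm0.le
        change min (b : ℝ) m₂ - η * b ≤ m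
        rcases le_total (b : ℝ) m₂ with h | h
        · rw [min_eq_left h]; nlinarith
        · rw [min_eq_right h]; nlinarith
      linarith
    · let lo : I := ⟨η * m₂, by nlinarith, by nlinarith⟩
      let hi : I := ⟨m₂, by linarith, hm₂1.le⟩
      have hsub : Icc lo hi ⊆ {x : I | x ≤ hi ∧ hi ≤ φ x} := by
        intro x hx
        have h1 : η * m₂ ≤ (x : ℝ) := hx.1
        have h2 : (x : ℝ) ≤ m₂ := hx.2
        refine ⟨hx.2, ?_⟩
        change m₂ ≤ (φ x : ℝ)
        rw [hφ]
        refine le_min hm₂1.le (le_min ?_ (le_max_of_le_right ?_))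
        · rw [le_div_iff₀ hη0]; linarith
        · have : L * (x - m₁) ≤ L * (m₂ - m₁) := by gcongr
          linarith
      have h1 : (volume : Measure I).real (Icc lo hi)
          ≤ (volume : Measure I).real {x : I | x ≤ hi ∧ hi ≤ φ x} := measureReal_mono hsub
      have h2 : (volume : Measure I).real (Icc lo hi) = m := by
        rw [Measure.real, unitInterval.volume_Icc, ENNReal.toReal_ofReal']
        change max (m₂ - η * m₂) 0 = m
        rw [max_eq_left (by nlinarith)]
        linarith
      rw [h2] at h1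
      exact h1.trans (vs_le_crossing φ hi)
  refine ⟨φ, hφ0, hcross, ?_⟩
  obtain ⟨r, hr0, hr⟩ := vs_exists (intSub φ)
  refine ⟨r, hr, ?_⟩
  have hm₁0 : 0 < m₁ - η := by linarith
  let e : I := ⟨η, hη0.le, by linarith⟩
  let p : I := ⟨m₁, by linarith, by linarith⟩
  have hep : e ≤ p := show η ≤ m₁ by linarith
  set c : ℝ := m₁ - η with hc
  let g : C(I, ℝ) := vs_g c (p : ℝ) s
  have hg : ∀ x, g x = c / s * Real.exp (((x : ℝ) - m₁) / s) := fun x => rfl
  have hg0 : ∀ x, 0 ≤ g x := fun x => by rw [hg]; positivity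
  let f : I → ℝ := fun x => (Icc e p).indicator (fun _ => (1 : ℝ)) x + (Ioc p 1).indicator g x
  have hf0 : ∀ x, 0 ≤ f x := fun x =>
    add_nonneg (indicator_nonneg (fun _ _ => zero_le_one) _) (indicator_nonneg (fun y _ => hg0 y) _)
  have hf1 : Integrable (fun x => (Icc e p).indicator (fun _ => (1 : ℝ)) x) :=
    (integrable_const (1 : ℝ)).indicator measurableSet_Icc
  have hf2 : Integrable (fun x => (Ioc p 1).indicator g x) :=
    (vs_integrable g).indicator measurableSet_Ioc
  have hfi : Integrable f := hf1.add hf2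
  have hG : ∀ y : I, p ≤ y → c * Real.exp (((y : ℝ) - m₁) / s) ≤ ∫ t in Iic y, f t := by
    intro y hy
    have h1 : ∫ t in Iic y, f t = (∫ t in Iic y, (Icc e p).indicator (fun _ => (1 : ℝ)) t)
        + ∫ t in Iic y, (Ioc p 1).indicator g t := integral_add hf1.integrableOn hf2.integrableOn
    rw [h1, setIntegral_indicator measurableSet_Icc, setIntegral_indicator measurableSet_Ioc]
    have h2 : Iic y ∩ Icc e p = Icc e p := by
      apply inter_eq_right.2
      intro x hx
      exact hx.2.trans hy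
    have h3 : Iic y ∩ Ioc p 1 = Ioc p y := by
      ext x
      constructor
      · rintro ⟨h4, h5⟩; exact ⟨h5.1, h4⟩
      · rintro ⟨h4, h5⟩; exact ⟨h5, h4, unitInterval.le_one x⟩
    rw [h2, h3, setIntegral_const, smul_eq_mul, mul_one, Measure.real, unitInterval.volume_Icc,
      ENNReal.toReal_ofReal']
    have h4 : ∫ x in Ioc p y, g x = c * Real.exp (((y : ℝ) - p) / s) - c :=
      vs_g_int p y hy
    rw [h4]
    have h5 : max ((p : ℝ) - e) 0 = c := by
      change max (m₁ - η) 0 = c
      rw [max_eq_left hm₁0.le]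
    rw [h5]
    change _ ≤ c + (c * Real.exp (((y : ℝ) - m₁) / s) - c)
    linarith
  have hfe : f e = 1 := by
    have h1 : e ∈ Icc e p := ⟨le_rfl, hep⟩
    have h2 : e ∉ Ioc p 1 := fun h => absurd h.1 (not_lt.2 hep)
    change (Icc e p).indicator (fun _ => (1 : ℝ)) e + (Ioc p 1).indicator g e = 1
    rw [indicator_of_mem h1, indicator_of_notMem h2, add_zero]
  refine vs_sub φ hr hs.le (B := 1 + c / s * Real.exp (1 / s)) (by positivity) f hfi
    ?_ e (by rw [hfe]; exact one_pos) ?_
  · intro x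
    refine add_le_add ?_ ?_
    · exact indicator_le_self' (fun _ _ => zero_le_one) x
    · refine (indicator_le_self' (fun y _ => hg0 y) x).trans ?_
      rw [hg]
      gcongr
      have := x.2.2
      linarith
  · intro x
    rcases lt_or_ge x e with hx | hx
    · have h1 : x ∉ Icc e p := fun h => absurd h.1 (not_le.2 hx)
      have h2 : x ∉ Ioc p 1 := fun h => absurd (h.1.trans hx) (not_lt.2 hep)
      have h3 : f x = 0 := by
        change (Icc e p).indicator (fun _ => (1 : ℝ)) x + (Ioc p 1).indicator g x = 0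
        rw [indicator_of_notMem h1, indicator_of_notMem h2, add_zero]
      rw [h3, mul_zero]
      exact integral_nonneg fun t => hf0 t
    · rcases le_or_gt x p with hxp | hxp
      · have h1 : x ∈ Icc e p := ⟨hx, hxp⟩
        have h2 : x ∉ Ioc p 1 := fun h => absurd h.1 (not_lt.2 hxp)
        have h3 : f x = 1 := by
          change (Icc e p).indicator (fun _ => (1 : ℝ)) x + (Ioc p 1).indicator g x = 1
          rw [indicator_of_mem h1, indicator_of_notMem h2, add_zero]
        have hx' : η ≤ (x : ℝ) := hx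
        have hxp' : (x : ℝ) ≤ m₁ := hxp
        have h4 : φ x = 1 := by
          ext
          rw [hφ]
          apply min_eq_left
          refine le_min ?_ (le_max_of_le_right ?_)
          · rw [le_div_iff₀ hη0]; linarith
          · nlinarith
        rw [h3, h4, mul_one]
        refine le_trans ?_ (hG 1 (unitInterval.le_one p))
        rw [Icc.coe_one]
        have h5 : q ≤ c := by linarith
        have h6 : Real.exp ((1 - m) / s) ≤ Real.exp ((1 - m₁) / s) := by
          gcongr
          linarith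
        have h7 : q * Real.exp ((1 - m) / s) = s := by
          rw [hq, mul_assoc, ← Real.exp_add]
          have : -(1 - m) / s + (1 - m) / s = 0 := by ring
          rw [this, Real.exp_zero, mul_one]
        calc s = q * Real.exp ((1 - m) / s) := h7.symm
          _ ≤ c * Real.exp ((1 - m₁) / s) := by gcongr
      · have h1 : x ∉ Icc e p := fun h => absurd h.2 (not_le.2 hxp)
        have h2 : x ∈ Ioc p 1 := ⟨hxp, unitInterval.le_one x⟩
        have h3 : f x = g x := by
          change (Icc e p).indicator (fun _ => (1 : ℝ)) x + (Ioc p 1).indicator g x = g x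
          rw [indicator_of_notMem h1, indicator_of_mem h2, zero_add]
        rw [h3, hg]
        have h4 : p ≤ φ x := hxp.le.trans (show (x : ℝ) ≤ φ x from hφx x)
        refine le_trans ?_ (hG (φ x) h4)
        have h5 : s * (c / s * Real.exp (((x : ℝ) - m₁) / s))
            = c * Real.exp (((x : ℝ) - m₁) / s) := by field_simp
        rw [h5]
        have := hφx x
        gcongr

/-! ### The constant `e` is best possible -/

/-- the function `min 1 (min (x + δ) (2 x))` -/
noncomputable def vs_phi3 (δ : ℝ) (hδ : 0 ≤ δ) : C(I, I) where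
  toFun x := ⟨min 1 (min ((x : ℝ) + δ) (2 * (x : ℝ))),
    le_min zero_le_one (le_min (add_nonneg x.2.1 hδ) (mul_nonneg zero_le_two x.2.1)),
    min_le_left _ _⟩
  continuous_toFun := Continuous.subtype_mk (by fun_prop) _

theorem vs_sub3 {δ α β : ℝ} (hδ0 : 0 < δ) (hδ1 : δ < 1 / 4) (hβ : β = Real.pi / (1 - 2 * δ))
    (hθ : β * δ < Real.pi / 2)
    (hα : α = β * Real.cos (β * δ) / Real.sin (β * δ)) {r : ℝ}
    (hr : HasRadius (intSub (vs_phi3 δ hδ0.le)) r) :
    Real.exp (α * δ) * Real.sin (β * δ) / β ≤ r := by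
  have h12 : 0 < 1 - 2 * δ := by linarith
  have hβ0 : 0 < β := by rw [hβ]; exact div_pos Real.pi_pos h12
  have hθ0 : 0 < β * δ := by positivity
  have hsin : 0 < Real.sin (β * δ) := Real.sin_pos_of_pos_of_lt_pi hθ0 (by linarith [Real.pi_pos])
  have hcos : 0 < Real.cos (β * δ) := Real.cos_pos_of_mem_Ioo ⟨by linarith, hθ⟩
  have hα0 : 0 < α := by rw [hα]; positivity
  have hβπ : β * (1 - 2 * δ) = Real.pi := by rw [hβ]; field_simp
  let e : I := ⟨δ, hδ0.le, by linarith⟩
  let p : I := ⟨1 - δ, by linarith, by linarith⟩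
  have hep : e ≤ p := show δ ≤ 1 - δ by linarith
  set φ := vs_phi3 δ hδ0.le with hφdef
  have hφ : ∀ x, (φ x : ℝ) = min 1 (min ((x : ℝ) + δ) (2 * (x : ℝ))) := fun x => rfl
  let G : ℝ → ℝ := fun t => Real.exp (α * (t - δ)) * Real.sin (β * (t - δ))
  have hGc : Continuous G := by fun_prop
  let g : C(I, ℝ) := ⟨fun t : I => G t, hGc.comp continuous_subtype_val⟩
  let f : I → ℝ := (Icc e p).indicator g
  have hgx : ∀ x : I, g x = G x := fun x => rfl
  have hg0 : ∀ x ∈ Icc e p, 0 ≤ g x := by
    intro x hx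
    have h1 : δ ≤ (x : ℝ) := hx.1
    have h2 : (x : ℝ) ≤ 1 - δ := hx.2
    rw [hgx]
    refine mul_nonneg (Real.exp_pos _).le (Real.sin_nonneg_of_nonneg_of_le_pi ?_ ?_)
    · exact mul_nonneg hβ0.le (by linarith)
    · rw [← hβπ]
      exact mul_le_mul_of_nonneg_left (by linarith) hβ0.le
  have hfi : Integrable f := (vs_integrable g).indicator measurableSet_Icc
  have hf0 : ∀ x, 0 ≤ f x := fun x => indicator_nonneg hg0 x
  -- the primitive
  have hprim : ∀ a b : ℝ, ∫ t in a..b, G t
      = Real.exp (α * (b - δ)) * (α * Real.sin (β * (b - δ)) - β * Real.cos (β * (b - δ)))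
          / (α ^ 2 + β ^ 2)
        - Real.exp (α * (a - δ)) * (α * Real.sin (β * (a - δ)) - β * Real.cos (β * (a - δ)))
          / (α ^ 2 + β ^ 2) := by
    intro a b
    have h3 : ∀ x ∈ uIcc a b, HasDerivAt
        (fun x : ℝ => Real.exp (α * (x - δ)) *
          (α * Real.sin (β * (x - δ)) - β * Real.cos (β * (x - δ))) / (α ^ 2 + β ^ 2)) (G x) x := by
      intro x _
      have d1 : HasDerivAt (fun x : ℝ => α * (x - δ)) α x := by
        simpa using ((hasDerivAt_id x).sub_const δ).const_mul α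
      have d2 : HasDerivAt (fun x : ℝ => β * (x - δ)) β x := by
        simpa using ((hasDerivAt_id x).sub_const δ).const_mul β
      have d3 : HasDerivAt
        (fun x : ℝ => Real.exp (α * (x - δ)) *
          (α * Real.sin (β * (x - δ)) - β * Real.cos (β * (x - δ))) / (α ^ 2 + β ^ 2))
        ((Real.exp (α * (x - δ)) * α *
          (α * Real.sin (β * (x - δ)) - β * Real.cos (β * (x - δ))) +
          Real.exp (α * (x - δ)) * (α * (Real.cos (β * (x - δ)) * β)
            - β * (-Real.sin (β * (x - δ)) * β))) / (α ^ 2 + β ^ 2)) x :=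
        (d1.exp.mul ((d2.sin.const_mul α).sub (d2.cos.const_mul β))).div_const
          (α ^ 2 + β ^ 2)
      have h4 : (Real.exp (α * (x - δ)) * α *
          (α * Real.sin (β * (x - δ)) - β * Real.cos (β * (x - δ))) +
          Real.exp (α * (x - δ)) * (α * (Real.cos (β * (x - δ)) * β)
            - β * (-Real.sin (β * (x - δ)) * β))) / (α ^ 2 + β ^ 2) = G x := by
        change _ = Real.exp (α * (x - δ)) * Real.sin (β * (x - δ))
        have : (0 : ℝ) < α ^ 2 + β ^ 2 := by positivity
        rw [div_eq_iff this.ne']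
        ring
      rw [h4] at d3
      exact d3
    rw [intervalIntegral.integral_eq_sub_of_hasDerivAt h3 (hGc.intervalIntegrable _ _)]
  have hmain : ∀ x : I, e ≤ x → x ≤ p →
      Real.exp (α * δ) * Real.sin (β * δ) / β * G x ≤ ∫ t in δ..((x : ℝ) + δ), G t := by
    intro x _ _
    rw [hprim, sub_self, mul_zero, mul_zero, Real.exp_zero, Real.sin_zero, Real.cos_zero,
      add_sub_cancel_right]
    have h1 : Real.exp (α * δ) * Real.sin (β * δ) / β * G x
        = Real.exp (α * x) * (α * Real.sin (β * x) - β * Real.cos (β * x)) / (α ^ 2 + β ^ 2) := by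
      have h2 : α ^ 2 + β ^ 2 = β ^ 2 / Real.sin (β * δ) ^ 2 := by
        have h3 := Real.sin_sq_add_cos_sq (β * δ)
        rw [hα]
        field_simp
        linear_combination h3
      have h4 : Real.exp (α * x) = Real.exp (α * δ) * Real.exp (α * (x - δ)) := by
        rw [← Real.exp_add]; ring_nf
      have h5 : Real.sin (β * (x - δ))
          = Real.sin (β * x) * Real.cos (β * δ) - Real.cos (β * x) * Real.sin (β * δ) := by
        rw [← Real.sin_sub]; ring_nf
      change Real.exp (α * δ) * Real.sin (β * δ) / β *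
        (Real.exp (α * (x - δ)) * Real.sin (β * (x - δ))) = _
      rw [h2, h4, h5, hα]
      field_simp
    rw [h1]
    have h6 : (0 : ℝ) < α ^ 2 + β ^ 2 := by positivity
    have h7 : 1 * (α * 0 - β * 1) / (α ^ 2 + β ^ 2) ≤ 0 := by
      apply div_nonpos_of_nonpos_of_nonneg _ h6.le
      linarith
    linarith
  have hfG : ∀ x : I, e ≤ x → x ≤ p → ∫ t in δ..((x : ℝ) + δ), G t ≤ ∫ t in Iic (φ x), f t := by
    intro x hx1 hx2
    have hx1' : δ ≤ (x : ℝ) := hx1
    have hx2' : (x : ℝ) ≤ 1 - δ := hx2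
    have hφx : (φ x : ℝ) = x + δ := by
      rw [hφ, min_eq_left (show (x : ℝ) + δ ≤ 2 * x by linarith), min_eq_right (by linarith)]
    rw [setIntegral_indicator measurableSet_Icc]
    rcases le_total ((x : ℝ) + δ) (1 - δ) with h | h
    · have h1 : Iic (φ x) ∩ Icc e p = Icc e (φ x) := by
        ext y
        constructor
        · rintro ⟨a, b⟩; exact ⟨b.1, a⟩
        · rintro ⟨a, b⟩
          refine ⟨b, a, b.trans ?_⟩
          change (φ x : ℝ) ≤ 1 - δ
          rw [hφx]; exact h
      have h2 := vs_conv G e (φ x) (show δ ≤ (φ x : ℝ) by rw [hφx]; linarith)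
      rw [h1]
      have h3 : ∫ t in Icc e (φ x), g t = ∫ t in δ..(φ x : ℝ), G t := h2
      rw [h3, hφx]
    · have h1 : Iic (φ x) ∩ Icc e p = Icc e p := by
        apply inter_eq_right.2
        intro y hy
        refine hy.2.trans ?_
        change 1 - δ ≤ (φ x : ℝ)
        rw [hφx]; exact h
      have h3 : ∫ t in Icc e p, g t = ∫ t in δ..(1 - δ), G t := vs_conv G e p hep
      rw [h1, h3]
      have h4 := intervalIntegral.integral_add_adjacent_intervals
        (hGc.intervalIntegrable δ (1 - δ) (μ := volume))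
        (hGc.intervalIntegrable (1 - δ) ((x : ℝ) + δ))
      have h5 : ∫ t in (1 - δ)..((x : ℝ) + δ), G t ≤ 0 := by
        have h6 : ∫ t in (1 - δ)..((x : ℝ) + δ), G t ≤ ∫ t in (1 - δ)..((x : ℝ) + δ), (0 : ℝ) := by
          refine intervalIntegral.integral_mono_on h (hGc.intervalIntegrable _ _)
            (intervalIntegrable_const) fun t ht => ?_
          change Real.exp (α * (t - δ)) * Real.sin (β * (t - δ)) ≤ 0
          refine mul_nonpos_of_nonneg_of_nonpos (Real.exp_pos _).le ?_
          have h7 : Real.sin (β * (t - δ)) = -Real.sin (β * (t - δ) - Real.pi) := by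
            rw [Real.sin_sub_pi, neg_neg]
          rw [h7, neg_nonpos]
          refine Real.sin_nonneg_of_nonneg_of_le_pi ?_ ?_
          · rw [← hβπ, ← mul_sub]
            exact mul_nonneg hβ0.le (by linarith [ht.1])
          · rw [← hβπ, ← mul_sub]
            exact mul_le_mul_of_nonneg_left (by linarith [ht.2]) hβ0.le
        simpa using h6
      linarith
  have hx0 : 0 < f ⟨1 / 2, by norm_num, by norm_num⟩ := by
    have h1 : (⟨1 / 2, by norm_num, by norm_num⟩ : I) ∈ Icc e p :=
      ⟨show δ ≤ 1 / 2 by linarith, show (1 / 2 : ℝ) ≤ 1 - δ by linarith⟩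
    change 0 < (Icc e p).indicator g _
    rw [indicator_of_mem h1, hgx]
    refine mul_pos (Real.exp_pos _) (Real.sin_pos_of_pos_of_lt_pi ?_ ?_)
    · exact mul_pos hβ0 (by norm_num; linarith)
    · rw [← hβπ]
      exact mul_lt_mul_of_pos_left (by norm_num; linarith) hβ0
  refine vs_sub φ hr (by positivity) (B := Real.exp α) (Real.exp_pos _) f hfi ?_ _ hx0 ?_
  · intro x
    by_cases hx : x ∈ Icc e p
    · change (Icc e p).indicator g x ≤ _
      rw [indicator_of_mem hx, hgx]
      have h1 : Real.exp (α * (x - δ)) ≤ Real.exp α := by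
        rw [Real.exp_le_exp]
        have := x.2.2
        nlinarith
      have h2 := Real.sin_le_one (β * (x - δ))
      have h3 := Real.exp_pos (α * (x - δ))
      change Real.exp (α * (x - δ)) * Real.sin (β * (x - δ)) ≤ _
      nlinarith
    · change (Icc e p).indicator g x ≤ _
      rw [indicator_of_notMem hx]
      exact (Real.exp_pos _).le
  · intro x
    by_cases hx : x ∈ Icc e p
    · have h1 : f x = G x := indicator_of_mem hx _
      rw [h1]
      exact (hmain x hx.1 hx.2).trans (hfG x hx.1 hx.2)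
    · have h1 : f x = 0 := indicator_of_notMem hx _
      rw [h1, mul_zero]
      exact integral_nonneg fun t => hf0 t

theorem vs_opt3 {c : ℝ} (hc : c < Real.exp 1) :
    ∃ φ : C(I, I), φ 0 = 0 ∧ Monotone φ ∧ 0 < excess φ ∧
      ∃ r, HasRadius (intSub φ) r ∧ c * excess φ ≤ r := by
  have hlim : Tendsto (fun δ : ℝ => Real.exp (Real.cos (Real.pi / (1 - 2 * δ) * δ) /
      Real.sinc (Real.pi / (1 - 2 * δ) * δ)) * Real.sinc (Real.pi / (1 - 2 * δ) * δ))
      (𝓝 0) (𝓝 (Real.exp 1)) := by
    have h1 : ContinuousAt (fun δ : ℝ => Real.exp (Real.cos (Real.pi / (1 - 2 * δ) * δ) /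
      Real.sinc (Real.pi / (1 - 2 * δ) * δ)) * Real.sinc (Real.pi / (1 - 2 * δ) * δ)) 0 := by
      have hA : ContinuousAt (fun δ : ℝ => Real.pi / (1 - 2 * δ) * δ) 0 := by
        refine ContinuousAt.mul (ContinuousAt.div continuousAt_const ?_ ?_) continuousAt_id
        · fun_prop
        · norm_num
      have hB : ContinuousAt (fun δ : ℝ => Real.sinc (Real.pi / (1 - 2 * δ) * δ)) 0 :=
        Real.continuous_sinc.continuousAt.comp hA
      have hC : ContinuousAt (fun δ : ℝ => Real.cos (Real.pi / (1 - 2 * δ) * δ)) 0 :=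
        Real.continuous_cos.continuousAt.comp hA
      refine ContinuousAt.mul (Real.continuous_exp.continuousAt.comp (hC.div hB ?_)) hB
      simp
    have h2 := h1.tendsto
    simpa using h2
  have hlim2 : Tendsto (fun δ : ℝ => Real.pi / (1 - 2 * δ) * δ) (𝓝 0) (𝓝 0) := by
    have hA : ContinuousAt (fun δ : ℝ => Real.pi / (1 - 2 * δ) * δ) 0 := by
      refine ContinuousAt.mul (ContinuousAt.div continuousAt_const ?_ ?_) continuousAt_id
      · fun_prop
      · norm_num
    have h2 := hA.tendsto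
    simpa using h2
  have hev : ∀ᶠ δ : ℝ in 𝓝[>] 0, 0 < δ ∧ δ < 1 / 4 ∧ Real.pi / (1 - 2 * δ) * δ < Real.pi / 2 ∧
      c < Real.exp (Real.cos (Real.pi / (1 - 2 * δ) * δ) /
      Real.sinc (Real.pi / (1 - 2 * δ) * δ)) * Real.sinc (Real.pi / (1 - 2 * δ) * δ) := by
    have e1 := (hlim.eventually (lt_mem_nhds hc)).filter_mono
      (nhdsWithin_le_nhds (s := Ioi (0 : ℝ)))
    have e2 := (hlim2.eventually (gt_mem_nhds (show (0 : ℝ) < Real.pi / 2 by positivity))).filter_mono
      (nhdsWithin_le_nhds (s := Ioi (0 : ℝ)))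
    have e3 : ∀ᶠ δ : ℝ in 𝓝[>] 0, δ < 1 / 4 :=
      (gt_mem_nhds (show (0 : ℝ) < 1 / 4 by norm_num)).filter_mono
      (nhdsWithin_le_nhds (s := Ioi (0 : ℝ)))
    filter_upwards [e1, e2, e3, self_mem_nhdsWithin] with δ a b d f
    exact ⟨f, d, b, a⟩
  obtain ⟨δ, hδ0, hδ1, hθ, hcδ⟩ := hev.exists
  have h12 : 0 < 1 - 2 * δ := by linarith
  set β : ℝ := Real.pi / (1 - 2 * δ) with hβ
  have hβ0 : 0 < β := div_pos Real.pi_pos h12
  have hθ0 : 0 < β * δ := by positivity
  have hφ : ∀ x, (vs_phi3 δ hδ0.le x : ℝ) = min 1 (min ((x : ℝ) + δ) (2 * (x : ℝ))) := fun x => rfl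
  have hexc : excess (vs_phi3 δ hδ0.le) = δ := by
    apply le_antisymm
    · refine ciSup_le fun x => ?_
      rw [hφ]
      have h1 : min 1 (min ((x : ℝ) + δ) (2 * (x : ℝ))) ≤ x + δ :=
        (min_le_right _ _).trans (min_le_left _ _)
      linarith
    · have h1 := vs_le_excess (vs_phi3 δ hδ0.le) ⟨δ, hδ0.le, by linarith⟩
      rw [hφ] at h1
      have h2 : 2 * δ ≤ min 1 (min (δ + δ) (2 * δ)) :=
        le_min (by linarith) (le_min (by linarith) le_rfl)
      simp only at h1
      linarith
  refine ⟨vs_phi3 δ hδ0.le, ?_, ?_, ?_, ?_⟩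
  · ext
    rw [hφ]
    simp only [Icc.coe_zero, mul_zero, zero_add]
    rw [min_eq_right hδ0.le]
    exact min_eq_right zero_le_one
  · intro x y hxy
    have hxy' : (x : ℝ) ≤ y := hxy
    change (vs_phi3 δ hδ0.le x : ℝ) ≤ vs_phi3 δ hδ0.le y
    rw [hφ, hφ]
    gcongr
  · rw [hexc]; exact hδ0
  · obtain ⟨r, hr0, hr⟩ := vs_exists (intSub (vs_phi3 δ hδ0.le))
    refine ⟨r, hr, ?_⟩
    rw [hexc]
    refine le_trans ?_ (vs_sub3 hδ0 hδ1 hβ hθ rfl hr)
    have h1 : Real.sinc (β * δ) = Real.sin (β * δ) / (β * δ) := Real.sinc_of_ne_zero hθ0.ne'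
    have h2 : Real.cos (β * δ) / Real.sinc (β * δ)
        = β * Real.cos (β * δ) / Real.sin (β * δ) * δ := by
      rw [h1]; field_simp
    have h3 : Real.sin (β * δ) / β = Real.sinc (β * δ) * δ := by
      rw [h1]; field_simp
    rw [mul_div_assoc, h3, ← h2, ← mul_assoc]
    gcongr

end Pool.Agent.H12.B71890
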