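import Mathlib

/-!
# The operator `I_φ f (x) = ∫_0^{φ(x)} f(t) dt` on `C[0,1]`
-/

open MeasureTheory Set Filter Topology
open scoped unitInterval

namespace Pool.Agent.H12.B71890

/-- The function `x ↦ ∫_0^{φ(x)} f(t) dt`, as an element of `C[0,1]` (`Set.IccExtend` extends
`f : [0,1] → ℝ` to the real line by constants). -/
noncomputable def intSubFun (φ : C(I, I)) (f : C(I, ℝ)) : C(I, ℝ) where
  toFun x := ∫ t in (0 : ℝ)..(φ x : ℝ), Set.IccExtend (zero_le_one (α := ℝ)) f t
  continuous_toFun := by
    have h : Continuous (Set.IccExtend (zero_le_one (α := ℝ)) f) := f.continuous.Icc_extend'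
    exact (intervalIntegral.continuous_primitive (fun a b => h.intervalIntegrable a b) 0).comp
      (continuous_subtype_val.comp φ.continuous)

/-- The bounded operator `I_φ` on `C[0,1]`. -/
noncomputable def intSub (φ : C(I, I)) : C(I, ℝ) →L[ℝ] C(I, ℝ) :=
  LinearMap.mkContinuous
    { toFun := intSubFun φ
      map_add' := by
        intro f g
        ext x
        have hf : Continuous (Set.IccExtend (zero_le_one (α := ℝ)) f) := f.continuous.Icc_extend'
        have hg : Continuous (Set.IccExtend (zero_le_one (α := ℝ)) g) := g.continuous.Icc_extend'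
        exact intervalIntegral.integral_add (hf.intervalIntegrable _ _) (hg.intervalIntegrable _ _)
      map_smul' := by
        intro c f
        ext x
        exact intervalIntegral.integral_const_mul c _ } 1
    (by
      intro f
      refine (ContinuousMap.norm_le _ (by positivity)).2 fun x => ?_
      have h1 : ‖∫ t in (0 : ℝ)..(φ x : ℝ), Set.IccExtend (zero_le_one (α := ℝ)) f t‖
          ≤ ‖f‖ * |(φ x : ℝ) - 0| :=
        intervalIntegral.norm_integral_le_of_norm_le_const fun t _ => f.norm_coe_le_norm _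
      have h2 : |(φ x : ℝ) - 0| ≤ 1 := by
        rw [sub_zero, abs_of_nonneg (φ x).2.1]
        exact (φ x).2.2
      have h3 : ‖f‖ * |(φ x : ℝ) - 0| ≤ ‖f‖ * 1 := by gcongr
      rw [one_mul]
      rw [mul_one] at h3
      exact h1.trans h3)

/-- `r` is the spectral radius of `T`: the limit of `‖T ^ n‖ ^ (1 / n)`. -/
def HasRadius (T : C(I, ℝ) →L[ℝ] C(I, ℝ)) (r : ℝ) : Prop :=
  Tendsto (fun n : ℕ => ‖T ^ n‖ ^ (1 / (n : ℝ))) atTop (𝓝 r)

/-- `sup_b |{x : x ≤ b ≤ φ(x)}|`, the supremum over `b` in `[0,1]` of a Lebesgue measure. -/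
noncomputable def crossing (φ : C(I, I)) : ℝ :=
  ⨆ b : I, (volume : Measure I).real {x : I | x ≤ b ∧ b ≤ φ x}

/-- `sup_x (φ(x) - x)`. -/
noncomputable def excess (φ : C(I, I)) : ℝ := ⨆ x : I, ((φ x : ℝ) - x)

end Pool.Agent.H12.B71890
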